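import Mathlib
import Pool.Agent.V11177.QInterval

namespace Pool.Agent.Results.MP_12a8d1_co.FirstIdentity

open Pool.Agent.V11177.QInterval PowerSeries

/-- `ℂ[[u,v]]`: `v` is the outer and `u` the inner variable, so the coefficient of `u^a v^b` in `f`
is `coeff a (coeff b f)`. -/
abbrev Ser := PowerSeries (PowerSeries ℂ)

/-- `1/p` with `p = p₀ + u` -/
noncomputable def pinv (p0 : ℂ) : Ser := PPi p0

/-- `p = p₀ + u` -/
noncomputable def pser (p0 : ℂ) : Ser := PP p0

/-- `1/q` with `q = q₀ + v` -/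
noncomputable def qinv (q0 : ℂ) : Ser := QQi (C : ℂ →+* PowerSeries ℂ) q0

/-- the summand `(1/p; 1/q)_n` of the left side of (1) -/
noncomputable def termL (p0 q0 : ℂ) (n : ℕ) : Ser := poch (pinv p0) (qinv q0) n

/-- the summand `(p/q)^{n+1} (1/q; 1/q)_n` of the right side of (1) -/
noncomputable def termR (p0 q0 : ℂ) (n : ℕ) : Ser :=
  (pser p0 * qinv q0) ^ (n + 1) * poch (qinv q0) (qinv q0) n

/-- coefficientwise convergence of `∑ t n` -/
def Converges (t : ℕ → Ser) : Prop := ∀ a b, {n | coeff a (coeff b (t n)) ≠ 0}.Finite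

/-- the coefficientwise sum -/
noncomputable def value (t : ℕ → Ser) : Ser :=
  PowerSeries.mk fun b => PowerSeries.mk fun a => ∑ᶠ n, coeff a (coeff b (t n))

/-- sanity check: `p · (1/p) = 1` and `q · (1/q) = 1` -/
theorem inv_checks {p0 q0 : ℂ} (hp : p0 ≠ 0) (hq : q0 ≠ 0) :
    pser p0 * pinv p0 = 1 ∧ QQ (C : ℂ →+* PowerSeries ℂ) q0 * qinv q0 = 1 :=
  ⟨PP_inv hp, QQ_inv _ hq⟩

theorem exists_j {p0 q0 : ℂ} {k : ℕ} (hk : 1 ≤ k) (hq : q0 ^ k = 1)
    (hL : Converges (termL p0 q0)) : ∃ j < k, p0 * q0 ^ j = 1 := by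
  by_contra hcon
  push Not at hcon
  have hne : ∀ i, p0 * q0 ^ i ≠ 1 := by
    intro i h
    apply hcon (i % k) (Nat.mod_lt _ hk)
    rw [← Nat.div_add_mod i k, pow_add, pow_mul, hq, one_pow, one_mul] at h
    exact h
  have hall : ∀ n, coeff 0 (coeff 0 (termL p0 q0 n)) ≠ 0 := by
    intro n
    rw [coeff_zero_eq_constantCoeff_apply, coeff_zero_eq_constantCoeff_apply]
    unfold termL poch
    rw [map_prod, map_prod]
    apply Finset.prod_ne_zero_iff.2
    intro i _
    unfold pinv qinv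
    rw [map_sub, map_sub, map_one, map_one, map_mul, map_mul, map_pow, map_pow, eps_PPi, eps_QQi,
      inv_pow, ← mul_inv]
    intro h
    have h1 : (p0 * q0 ^ i)⁻¹ = 1 := (sub_eq_zero.1 h).symm
    exact hne i (inv_eq_one.1 h1)
  have hfin := hL 0 0
  have : {n | coeff 0 (coeff 0 (termL p0 q0 n)) ≠ 0} = Set.univ := by
    ext n
    exact ⟨fun _ => trivial, fun _ => hall n⟩
  rw [this] at hfin
  exact Set.infinite_univ hfin

/-- **Main theorem (Q1).** If `p₀`, `q₀` are `k`-th roots of unity and both sides of (1) converge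
in `ℂ[[p-p₀, q-q₀]]`, then they converge to the same power series. -/
theorem result (k : ℕ) (hk : 1 ≤ k) (p0 q0 : ℂ) (hp : p0 ^ k = 1) (hq : q0 ^ k = 1)
    (hL : Converges (termL p0 q0)) (_hR : Converges (termR p0 q0)) :
    value (termL p0 q0) = value (termR p0 q0) := by
  obtain ⟨j, hj, hpj⟩ := exists_j hk hq hL
  have hp0 : p0 ≠ 0 := ne_zero_of_pow hk hp
  have hq0 : q0 ≠ 0 := ne_zero_of_pow hk hq
  apply PowerSeries.ext
  intro b
  apply PowerSeries.ext
  intro a
  unfold value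
  rw [coeff_mk, coeff_mk, coeff_mk, coeff_mk]
  set K := a + b + 1 with hK
  set M := k * K with hM
  have z1 : ∀ n, M ≤ n → coeff a (coeff b (termL p0 q0 n)) = 0 := by
    intro n hn
    exact poch_mem_J hq hj hpj K n hn a b (by omega)
  have hdvd : ∀ n, M ≤ n → (X : Ser) ^ K ∣ poch (qinv q0) (qinv q0) n := by
    intro n hn
    exact dvd_poch (C : ℂ →+* PowerSeries ℂ) hk (const_QQi_base hq) K n hn
  have z2 : ∀ n, M ≤ n → coeff a (coeff b (termR p0 q0 n)) = 0 := by
    intro n hn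
    have : (X : Ser) ^ K ∣ termR p0 q0 n := Dvd.dvd.mul_left (hdvd n hn) _
    rw [coeff_of_dvd this (by omega), map_zero]
  have fin1 : ∀ (t : ℕ → ℂ), (∀ n, M ≤ n → t n = 0) → ∑ᶠ n, t n = ∑ n ∈ Finset.range M, t n := by
    intro t ht
    apply finsum_eq_sum_of_support_subset
    intro n hn
    rw [Finset.coe_range, Set.mem_Iio]
    by_contra h
    exact hn (ht n (by omega))
  rw [fin1 _ z1, fin1 _ z2, ← map_sum, ← map_sum, ← map_sum, ← map_sum]
  have hS : ∑ n ∈ Finset.range M, termR p0 q0 n =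
      SF (pser p0) (QQ (C : ℂ →+* PowerSeries ℂ) q0) (qinv q0) 0 M := by
    unfold SF termR
    simp
  have h := SF_iter (inv_checks hp0 hq0).1 (inv_checks hp0 hq0).2 K M (hdvd M le_rfl) M
  rw [← hS] at h
  have h2 := coeff_of_dvd h (show b < K by omega)
  have h3 : coeff a (coeff b (poch (pinv p0) (qinv q0) M *
      SF (pser p0) (QQ (C : ℂ →+* PowerSeries ℂ) q0) (qinv q0) M M)) = 0 := by
    have : poch (pinv p0) (qinv q0) M *
      SF (pser p0) (QQ (C : ℂ →+* PowerSeries ℂ) q0) (qinv q0) M M ∈ J K :=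
      (J K).mul_mem_right _ (poch_mem_J hq hj hpj K M le_rfl)
    exact this a b (by omega)
  have h4 := congrArg (coeff a) h2
  rw [map_sub, map_sub, map_sub, map_sub, h3, map_zero, sub_zero] at h4
  exact (sub_eq_zero.1 h4).symm

end Pool.Agent.Results.MP_12a8d1_co.FirstIdentity
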