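import Mathlib
import Pool.Agent.V11177.QInterval

namespace Pool.Agent.Results.MP_12a8d1_co.SecondIdentity

open Pool.Agent.V11177.QInterval PowerSeries

/-- `ℂ[p][[v]]` -/
abbrev Ser := PowerSeries (Polynomial ℂ)

/-- the indeterminate `p` -/
noncomputable def pser : Ser := PowerSeries.C Polynomial.X

/-- `q = q₀ + v` -/
noncomputable def qser (q0 : ℂ) : Ser := QQ (Polynomial.C : ℂ →+* Polynomial ℂ) q0

/-- `1/q` with `q = q₀ + v` -/
noncomputable def qinv (q0 : ℂ) : Ser := QQi (Polynomial.C : ℂ →+* Polynomial ℂ) q0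

/-- the summand `p q^n (p; q)_n (q; q)_n` of the left side of (2) -/
noncomputable def termL (q0 : ℂ) (n : ℕ) : Ser :=
  pser * qser q0 ^ n * poch pser (qser q0) n * poch (qser q0) (qser q0) n

/-- the summand `(p/q)^{n+1} (1/q; 1/q)_n` of the right side of (2) -/
noncomputable def termR (q0 : ℂ) (n : ℕ) : Ser :=
  (pser * qinv q0) ^ (n + 1) * poch (qinv q0) (qinv q0) n

/-- convergence with respect to the powers of `v` -/
def Converges (t : ℕ → Ser) : Prop := ∀ b, {n | coeff b (t n) ≠ 0}.Finite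

/-- the coefficientwise sum -/
noncomputable def value (t : ℕ → Ser) : Ser := PowerSeries.mk fun b => ∑ᶠ n, coeff b (t n)

/-- sanity check: `q · (1/q) = 1` -/
theorem inv_check {q0 : ℂ} (hq : q0 ≠ 0) : qser q0 * qinv q0 = 1 := QQ_inv _ hq

/-- the embedding `ℂ[p] → ℂ[[u]]`, `p ↦ 1 + u` -/
noncomputable def phi : Polynomial ℂ →+* PowerSeries ℂ :=
  (Polynomial.coeToPowerSeries.ringHom).comp
    (Polynomial.compRingHom (Polynomial.C 1 + Polynomial.X))

theorem phi_inj : Function.Injective phi := by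
  rw [injective_iff_map_eq_zero]
  intro f hf
  have h1 : f.comp (Polynomial.C 1 + Polynomial.X) = 0 := by
    have h2 : ((f.comp (Polynomial.C 1 + Polynomial.X) : Polynomial ℂ) : PowerSeries ℂ) = 0 := hf
    rwa [Polynomial.coe_eq_zero_iff] at h2
  have h3 := congrArg (fun g : Polynomial ℂ => g.comp (Polynomial.X - Polynomial.C 1)) h1
  simp only [Polynomial.comp_assoc, Polynomial.zero_comp] at h3
  have h4 : (Polynomial.C 1 + Polynomial.X : Polynomial ℂ).comp (Polynomial.X - Polynomial.C 1) =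
      Polynomial.X := by simp
  rw [h4, Polynomial.comp_X] at h3
  exact h3

theorem phi_X : phi Polynomial.X = (C 1 + X : PowerSeries ℂ) := by
  unfold phi
  simp

theorem phi_C : phi.comp (Polynomial.C : ℂ →+* Polynomial ℂ) = (C : ℂ →+* PowerSeries ℂ) := by
  ext z
  unfold phi
  simp

theorem map_pser : PowerSeries.map phi pser = PP 1 := by
  unfold pser PP
  rw [PowerSeries.map_C, phi_X]

theorem map_map' {R S : Type*} [CommRing R] [CommRing S] (f : ℂ →+* R) (g : R →+* S)
    (z : PowerSeries ℂ) :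
    PowerSeries.map g (PowerSeries.map f z) = PowerSeries.map (g.comp f) z := by
  ext n
  simp

theorem map_qser (q0 : ℂ) : PowerSeries.map phi (qser q0) = QQ (C : ℂ →+* PowerSeries ℂ) q0 := by
  unfold qser QQ
  rw [map_map', phi_C]

theorem map_qinv (q0 : ℂ) : PowerSeries.map phi (qinv q0) = QQi (C : ℂ →+* PowerSeries ℂ) q0 := by
  unfold qinv QQi
  rw [map_map', phi_C]

/-- **Main theorem (Q2).** For every complex root of unity `q₀`, both sides of (2) converge in
`ℂ[p][[q-q₀]]`, and to the same power series. -/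
theorem result (k : ℕ) (hk : 1 ≤ k) (q0 : ℂ) (hq : q0 ^ k = 1) :
    Converges (termL q0) ∧ Converges (termR q0) ∧ value (termL q0) = value (termR q0) := by
  have hq0 : q0 ≠ 0 := ne_zero_of_pow hk hq
  have d1 : ∀ K n, k * K ≤ n → (X : Ser) ^ K ∣ poch (qser q0) (qser q0) n := by
    intro K n hn
    exact dvd_poch (Polynomial.C : ℂ →+* Polynomial ℂ) hk (const_QQ_base hq) K n hn
  have d2 : ∀ K n, k * K ≤ n → (X : Ser) ^ K ∣ poch (qinv q0) (qinv q0) n := by
    intro K n hn
    exact dvd_poch (Polynomial.C : ℂ →+* Polynomial ℂ) hk (const_QQi_base hq) K n hn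
  have z1 : ∀ b n, k * (b + 1) ≤ n → coeff b (termL q0 n) = 0 := by
    intro b n hn
    have : (X : Ser) ^ (b + 1) ∣ termL q0 n := Dvd.dvd.mul_left (d1 _ n hn) _
    exact coeff_of_dvd this (by omega)
  have z2 : ∀ b n, k * (b + 1) ≤ n → coeff b (termR q0 n) = 0 := by
    intro b n hn
    have : (X : Ser) ^ (b + 1) ∣ termR q0 n := Dvd.dvd.mul_left (d2 _ n hn) _
    exact coeff_of_dvd this (by omega)
  refine ⟨?_, ?_, ?_⟩
  · intro b
    apply (Set.finite_lt_nat (k * (b + 1))).subset
    intro n hn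
    by_contra h
    exact hn (z1 b n (not_lt.1 h))
  · intro b
    apply (Set.finite_lt_nat (k * (b + 1))).subset
    intro n hn
    by_contra h
    exact hn (z2 b n (not_lt.1 h))
  · apply PowerSeries.ext
    intro b
    unfold value
    rw [coeff_mk, coeff_mk]
    set K := b + 1 with hK
    set M := k * K with hM
    have fin1 : ∀ (t : ℕ → Polynomial ℂ), (∀ n, M ≤ n → t n = 0) →
        ∑ᶠ n, t n = ∑ n ∈ Finset.range M, t n := by
      intro t ht
      apply finsum_eq_sum_of_support_subset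
      intro n hn
      rw [Finset.coe_range, Set.mem_Iio]
      by_contra h
      exact hn (ht n (by omega))
    rw [fin1 _ (z1 b), fin1 _ (z2 b), ← map_sum, ← map_sum]
    apply phi_inj
    rw [← coeff_map, ← coeff_map]
    apply PowerSeries.ext
    intro a
    have hSG : PowerSeries.map phi (∑ n ∈ Finset.range M, termL q0 n) =
        SG (PP 1) (QQ (C : ℂ →+* PowerSeries ℂ) q0) 0 M := by
      unfold SG termL
      rw [map_sum]
      apply Finset.sum_congr rfl
      intro n _
      rw [map_mul, map_mul, map_mul, map_pow, map_poch, map_poch, map_pser, map_qser]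
      simp
    have hSF : PowerSeries.map phi (∑ n ∈ Finset.range M, termR q0 n) =
        SF (PP 1) (QQ (C : ℂ →+* PowerSeries ℂ) q0) (QQi (C : ℂ →+* PowerSeries ℂ) q0) 0 M := by
      unfold SF termR
      rw [map_sum]
      apply Finset.sum_congr rfl
      intro n _
      rw [map_mul, map_pow, map_mul, map_poch, map_pser, map_qinv]
      simp
    rw [hSG, hSF]
    have e1 : (X : PowerSeries (PowerSeries ℂ)) ^ K ∣
        poch (QQi (C : ℂ →+* PowerSeries ℂ) q0) (QQi (C : ℂ →+* PowerSeries ℂ) q0) M :=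
      dvd_poch (C : ℂ →+* PowerSeries ℂ) hk (const_QQi_base hq) K M le_rfl
    have e2 : (X : PowerSeries (PowerSeries ℂ)) ^ K ∣
        poch (QQ (C : ℂ →+* PowerSeries ℂ) q0) (QQ (C : ℂ →+* PowerSeries ℂ) q0) M :=
      dvd_poch (C : ℂ →+* PowerSeries ℂ) hk (const_QQ_base hq) K M le_rfl
    have h := SFG_iter (PP_inv one_ne_zero) (QQ_inv (C : ℂ →+* PowerSeries ℂ) hq0) K M e1 e2
      (k * (a + b + 1))
    have h2 := coeff_of_dvd h (show b < K by omega)
    have h3 : coeff a (coeff b (poch (PPi 1) (QQi (C : ℂ →+* PowerSeries ℂ) q0) (k * (a + b + 1)) *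
        (SF (PP 1) (QQ (C : ℂ →+* PowerSeries ℂ) q0) (QQi (C : ℂ →+* PowerSeries ℂ) q0)
          (k * (a + b + 1)) M -
          SG (PP 1) (QQ (C : ℂ →+* PowerSeries ℂ) q0) (k * (a + b + 1)) M))) = 0 := by
      have : poch (PPi 1) (QQi (C : ℂ →+* PowerSeries ℂ) q0) (k * (a + b + 1)) *
        (SF (PP 1) (QQ (C : ℂ →+* PowerSeries ℂ) q0) (QQi (C : ℂ →+* PowerSeries ℂ) q0)
          (k * (a + b + 1)) M -
          SG (PP 1) (QQ (C : ℂ →+* PowerSeries ℂ) q0) (k * (a + b + 1)) M) ∈ J (a + b + 1) :=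
        (J (a + b + 1)).mul_mem_right _
          (poch_mem_J (j := 0) hq (by omega) (by simp) (a + b + 1) _ le_rfl)
      exact this a b (by omega)
    have h4 := congrArg (coeff a) h2
    rw [map_sub, map_sub, h3, map_zero, sub_zero, map_sub, map_sub] at h4
    exact (sub_eq_zero.1 h4).symm

end Pool.Agent.Results.MP_12a8d1_co.SecondIdentity
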